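import Pool.Agent.Helper71.SN.Goals

/-!
# MP_9b2a83_an: packet EXPB
-/

namespace Pool.Agent.Helper71.SN.PkEXPB

open Pool.Agent.Helper71.SN Pool.Agent.Helper39.Net

/-- the shape with given first coordinates -/
def shp (e L : ℕ) (h : ℕ) (τ : Fin e → Fin h) : Fin (e + 1) → ℕ :=
  Fin.snoc (α := fun _ => ℕ) (fun c => (τ c).val) (L - ∑ c, (τ c).val)

theorem shp_sum {e L h : ℕ} (τ : Fin e → Fin h) (hh : e * (h - 1) ≤ L) :
    ∑ c, shp e L h τ c = L := by
  unfold shp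
  rw [Fin.sum_univ_castSucc]
  simp only [Fin.snoc_castSucc, Fin.snoc_last]
  have h1 : ∑ c, (τ c).val ≤ ∑ _c : Fin e, (h - 1) := by
    refine Finset.sum_le_sum fun c _ => ?_
    have := (τ c).isLt
    omega
  rw [Finset.sum_const, Finset.card_univ, Fintype.card_fin, smul_eq_mul] at h1
  omega

theorem shp_inj {e L h : ℕ} (τ τ' : Fin e → Fin h) (hh : shp e L h τ = shp e L h τ') : τ = τ' := by
  funext c
  have := congrFun hh (Fin.castSucc c)
  unfold shp at this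
  simp only [Fin.snoc_castSucc] at this
  exact Fin.ext this

theorem real_part (b N S : ℝ) (m d : ℕ) (hN : N = m + 1) (hm : 1 ≤ m) (hb : 2 * (d : ℝ) ≤ b)
    (hb1 : 1 ≤ b) (hd : 1 ≤ d) (hS : 0 < S) :
    S ^ (m + 1) * N ≤ 6 * (m : ℝ) * (S ^ 2 * (1 - 1 / b) ^ d) * (S * (1 - 1 / N)) ^ (m - 1) := by
  have hd' : (1 : ℝ) ≤ d := by exact_mod_cast hd
  have hm' : (1 : ℝ) ≤ m := by exact_mod_cast hm
  have hbp : 0 < b := by linarith
  have h1 : (1 : ℝ) / 2 ≤ (1 - 1 / b) ^ d := by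
    have h2 := one_add_mul_le_pow (a := -(1 / b)) (by
      have : 1 / b ≤ 1 := by rw [div_le_one hbp]; exact hb1
      linarith) d
    have h3 : (d : ℝ) * (1 / b) ≤ 1 / 2 := by
      rw [mul_one_div, div_le_iff₀ hbp]
      linarith
    have h4 : (1 : ℝ) - 1 / b = 1 + -(1 / b) := by ring
    rw [h4]
    linarith
  have hNp : 0 < N := by rw [hN]; positivity
  have hmp : (0 : ℝ) < m := by linarith
  have h5 : (1 : ℝ) / 3 ≤ (1 - 1 / N) ^ m := by
    have e1 : (1 : ℝ) - 1 / N = (1 + 1 / (m : ℝ))⁻¹ := by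
      rw [hN]
      field_simp
      ring
    rw [e1, inv_pow]
    have e2 : (1 + 1 / (m : ℝ)) ^ m ≤ 3 := by
      have h6 : (1 + 1 / (m : ℝ)) ≤ Real.exp (1 / (m : ℝ)) := by
        have := Real.add_one_le_exp (1 / (m : ℝ))
        linarith
      have h7 : (1 + 1 / (m : ℝ)) ^ m ≤ Real.exp (1 / (m : ℝ)) ^ m :=
        pow_le_pow_left₀ (by positivity) h6 m
      rw [← Real.exp_nat_mul] at h7
      have h8 : (m : ℝ) * (1 / (m : ℝ)) = 1 := by field_simp
      rw [h8] at h7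
      have := Real.exp_one_lt_d9
      linarith
    rw [one_div]
    exact inv_anti₀ (by positivity) e2
  have h9 : (m : ℝ) = N * (1 - 1 / N) := by
    rw [hN]
    field_simp
    ring
  have h10 : (m : ℝ) * (S * (1 - 1 / N)) ^ (m - 1) = N * S ^ (m - 1) * (1 - 1 / N) ^ m := by
    obtain ⟨k, rfl⟩ : ∃ k, m = k + 1 := ⟨m - 1, by omega⟩
    rw [Nat.add_sub_cancel, mul_pow]
    rw [h9]
    ring
  have h11 : S ^ (m + 1) = S ^ 2 * S ^ (m - 1) := by
    rw [← pow_add]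
    congr 1
    omega
  calc S ^ (m + 1) * N = 6 * (S ^ 2 * (1 / 2)) * (N * S ^ (m - 1) * (1 / 3)) := by rw [h11]; ring
    _ ≤ 6 * (S ^ 2 * (1 - 1 / b) ^ d) * (N * S ^ (m - 1) * (1 - 1 / N) ^ m) := by
      gcongr
    _ = 6 * (m : ℝ) * (S ^ 2 * (1 - 1 / b) ^ d) * (S * (1 - 1 / N)) ^ (m - 1) := by
      rw [← h10]
      ring

open Classical in
theorem comb (hA : G_EXPA) (e b L h : ℕ) (hb1 : 1 ≤ b) (hh2 : e * (h - 1) ≤ L) :
    b ^ L * (b ^ L - 1) * (h ^ e * ((b ^ (2 * L + 1) * (b - 1)) ^ (e + 1) *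
      (b ^ ((L + 1) * (e + 1)) - b ^ ((L + 1) * (e + 1) - L)) ^ (b ^ L - 2))) ≤
    2 ^ (e + 1) * b ^ L * ∑ F : Maps (e + 1) b L,
      (Finset.univ.filter fun q : Fin (b ^ L) × Fin (b ^ L) => Good F q.1 q.2).card := by
  -- the sets
  let A : Fin (b ^ L) × Fin (b ^ L) → (Fin e → Fin h) → Finset (Maps (e + 1) b L) := fun q τ =>
    Finset.univ.filter fun F : Maps (e + 1) b L =>
      (∀ c, (F q.1 c).val < (F q.2 c).val ∧ agr b (L + 1) (F q.1 c) (F q.2 c) = shp e L h τ c) ∧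
        ∀ k, k ≠ q.1 → k ≠ q.2 → ¬ ∀ c, shp e L h τ c ≤ agr b (L + 1) (F q.1 c) (F k c)
  have hX2 : (∑ F : Maps (e + 1) b L,
      (Finset.univ.filter fun q : Fin (b ^ L) × Fin (b ^ L) => Good F q.1 q.2).card) =
      ∑ q : Fin (b ^ L) × Fin (b ^ L),
      (Finset.univ.filter fun F : Maps (e + 1) b L => Good F q.1 q.2).card := by
    simp only [Finset.card_filter]
    exact Finset.sum_comm
  have hgood : ∀ q : Fin (b ^ L) × Fin (b ^ L), ∑ τ, (A q τ).card ≤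
      (Finset.univ.filter fun F : Maps (e + 1) b L => Good F q.1 q.2).card := by
    intro q
    rw [← Finset.card_biUnion]
    · refine Finset.card_le_card ?_
      intro F hF
      rw [Finset.mem_biUnion] at hF
      obtain ⟨τ, -, hF⟩ := hF
      simp only [A, Finset.mem_filter, Finset.mem_univ, true_and] at hF
      rw [Finset.mem_filter]
      refine ⟨Finset.mem_univ _, fun c => (hF.1 c).1, ?_, ?_⟩
      · rw [Finset.sum_congr rfl fun c _ => (hF.1 c).2]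
        exact shp_sum τ hh2
      · intro k hk
        by_contra hne
        push Not at hne
        refine hF.2 k hne.1 hne.2 fun c => ?_
        rw [← (hF.1 c).2]
        exact hk c
    · intro τ _ τ' _ hne
      simp only [Function.onFun]
      rw [Finset.disjoint_left]
      intro F hF hF'
      simp only [A, Finset.mem_filter, Finset.mem_univ, true_and] at hF hF'
      apply hne
      apply shp_inj (L := L)
      funext c
      rw [← (hF.1 c).2, ← (hF'.1 c).2]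
  have h5 : ∀ q ∈ (Finset.univ : Finset (Fin (b ^ L))).offDiag,
      ∑ τ, 2 ^ (e + 1) * b ^ L * (A q τ).card =
      h ^ e * ((b ^ (2 * L + 1) * (b - 1)) ^ (e + 1) *
      (b ^ ((L + 1) * (e + 1)) - b ^ ((L + 1) * (e + 1) - L)) ^ (b ^ L - 2)) := by
    intro q hq
    have hq' : q.1 ≠ q.2 := (Finset.mem_offDiag.1 hq).2.2
    have h6 : ∀ τ ∈ (Finset.univ : Finset (Fin e → Fin h)),
        2 ^ (e + 1) * b ^ L * (A q τ).card = ((b ^ (2 * L + 1) * (b - 1)) ^ (e + 1) *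
      (b ^ ((L + 1) * (e + 1)) - b ^ ((L + 1) * (e + 1) - L)) ^ (b ^ L - 2)) := by
      intro τ _
      exact hA (e + 1) b L hb1 (shp e L h τ) (shp_sum τ hh2) q.1 q.2 hq'
    rw [Finset.sum_congr rfl h6, Finset.sum_const, smul_eq_mul, Finset.card_univ]
    simp
  have h7 : b ^ L * (b ^ L - 1) * (h ^ e * ((b ^ (2 * L + 1) * (b - 1)) ^ (e + 1) *
      (b ^ ((L + 1) * (e + 1)) - b ^ ((L + 1) * (e + 1) - L)) ^ (b ^ L - 2))) =
      ∑ q ∈ (Finset.univ : Finset (Fin (b ^ L))).offDiag,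
        ∑ τ, 2 ^ (e + 1) * b ^ L * (A q τ).card := by
    rw [Finset.sum_congr rfl h5, Finset.sum_const, smul_eq_mul, Finset.offDiag_card,
      Finset.card_univ, Fintype.card_fin, Nat.mul_sub, Nat.mul_one]
  rw [h7, hX2, Finset.mul_sum]
  refine (Finset.sum_le_sum_of_subset (Finset.subset_univ _)).trans ?_
  refine Finset.sum_le_sum fun q _ => ?_
  rw [← Finset.mul_sum]
  exact Nat.mul_le_mul_left _ (hgood q)

theorem est (e b L N S : ℕ) (hb1 : 1 ≤ b) (hbig : 2 * (e + 1) ≤ b) (hN : N = b ^ L)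
    (hS : S = b ^ ((L + 1) * (e + 1))) (hN4 : 4 ≤ N) :
    S ^ N * N ≤ 6 * (N - 1) * ((b ^ (2 * L + 1) * (b - 1)) ^ (e + 1) *
      (S - b ^ ((L + 1) * (e + 1) - L)) ^ (N - 2)) := by
  have hSN : S = N * b ^ ((L + 1) * (e + 1) - L) := by
    rw [hS, hN, ← pow_add]
    congr 1
    have : L ≤ (L + 1) * (e + 1) := by nlinarith
    omega
  have hbR : (1 : ℝ) ≤ b := by exact_mod_cast hb1
  have hbp : (0 : ℝ) < b := by linarith
  have hSp : (0 : ℝ) < S := by
    rw [hS]; push_cast; positivity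
  have key := real_part (b : ℝ) (N : ℝ) (S : ℝ) (N - 1) (e + 1) (by
    rw [Nat.cast_sub (by omega)]; simp) (by omega) (by exact_mod_cast hbig) hbR (by omega) hSp
  have c1 : N - 1 + 1 = N := by omega
  have c2 : N - 1 - 1 = N - 2 := by omega
  rw [c1, c2] at key
  have r1 : (((b ^ (2 * L + 1) * (b - 1)) ^ (e + 1) : ℕ) : ℝ) =
      (S : ℝ) ^ 2 * (1 - 1 / (b : ℝ)) ^ (e + 1) := by
    rw [hS]
    push_cast [Nat.cast_sub hb1]
    have : (b : ℝ) ^ (2 * L + 1) * ((b : ℝ) - 1) = ((b : ℝ) ^ (L + 1)) ^ 2 * (1 - 1 / (b : ℝ)) := by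
      field_simp
      ring
    rw [this, mul_pow]
    congr 1
    rw [← pow_mul, ← pow_mul, ← pow_mul]
    congr 1
    ring
  have r2 : ((S - b ^ ((L + 1) * (e + 1) - L) : ℕ) : ℝ) = (S : ℝ) * (1 - 1 / (N : ℝ)) := by
    have hNp : (0 : ℝ) < N := by
      have : 0 < N := by omega
      exact_mod_cast this
    rw [Nat.cast_sub (by
      rw [hSN]
      exact Nat.le_mul_of_pos_left _ (by omega))]
    have : ((b ^ ((L + 1) * (e + 1) - L) : ℕ) : ℝ) = (S : ℝ) / N := by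
      rw [hSN]
      push_cast
      field_simp
    rw [this]
    ring
  have : ((S ^ N * N : ℕ) : ℝ) ≤ ((6 * (N - 1) * ((b ^ (2 * L + 1) * (b - 1)) ^ (e + 1) *
      (S - b ^ ((L + 1) * (e + 1) - L)) ^ (N - 2)) : ℕ) : ℝ) := by
    have e1 : ((6 * (N - 1) * ((b ^ (2 * L + 1) * (b - 1)) ^ (e + 1) *
      (S - b ^ ((L + 1) * (e + 1) - L)) ^ (N - 2)) : ℕ) : ℝ) = 6 * ((N - 1 : ℕ) : ℝ) *
        ((((b ^ (2 * L + 1) * (b - 1)) ^ (e + 1) : ℕ) : ℝ) *
          (((S - b ^ ((L + 1) * (e + 1) - L) : ℕ) : ℝ)) ^ (N - 2)) := by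
      rw [Nat.cast_mul, Nat.cast_mul, Nat.cast_mul, Nat.cast_pow (S - b ^ ((L + 1) * (e + 1) - L))]
      norm_num
    rw [e1, r1, r2]
    have e2 : ((S ^ N * N : ℕ) : ℝ) = (S : ℝ) ^ N * N := by push_cast; ring
    rw [e2]
    refine key.trans (le_of_eq ?_)
    ring
  exact_mod_cast this

theorem thm : G_EXPA → G_EXPB := by
  classical
  intro hA d b L hd hL hb
  obtain ⟨e, rfl⟩ : ∃ e, d = e + 1 := ⟨d - 1, by omega⟩
  have he : 1 ≤ e := by omega
  rw [Nat.add_sub_cancel]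
  -- size of b
  have hbig : 2 * (e + 1) ≤ b := by
    have h1 : (L + (e + 1)) ^ 2 ≤ (L + (e + 1)) ^ (2 * (e + 1)) :=
      Nat.pow_le_pow_right (by omega) (by omega)
    have h2 : 2 * (e + 1) ≤ (L + (e + 1)) ^ 2 := by nlinarith
    exact (h2.trans h1).trans hb
  have hb1 : 1 ≤ b := by omega
  obtain ⟨h, hh⟩ : ∃ h, h = (L + e) / (e + 1) := ⟨_, rfl⟩
  have hh1 : L ≤ h * (e + 1) := by
    have := Nat.div_add_mod (L + e) (e + 1)
    have h3 := Nat.mod_lt (L + e) (Nat.succ_pos e)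
    rw [← hh] at this
    nlinarith
  have hh2 : e * (h - 1) ≤ L := by
    have h4 : h * (e + 1) ≤ L + e := by
      rw [hh]
      exact Nat.div_mul_le_self _ _
    rcases Nat.eq_zero_or_pos h with h0 | h0
    · rw [h0]; omega
    · obtain ⟨k, hk⟩ : ∃ k, h = k + 1 := ⟨h - 1, by omega⟩
      rw [hk] at h4 ⊢
      rw [Nat.add_sub_cancel]
      nlinarith
  have hh3 : L ^ e ≤ (e + 1) ^ e * h ^ e := by
    rw [← mul_pow]
    exact Nat.pow_le_pow_left (by rw [mul_comm]; exact hh1) e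
  have hsum := comb hA e b L h hb1 hh2
  have hNb : b ≤ b ^ L := by
    calc b = b ^ 1 := (pow_one b).symm
      _ ≤ b ^ L := Nat.pow_le_pow_right (by omega) hL
  have hle := est e b L (b ^ L) (b ^ ((L + 1) * (e + 1))) hb1 hbig rfl rfl (by omega)
  have hSS : b ^ ((L + 1) * (e + 1) * b ^ L) = (b ^ ((L + 1) * (e + 1))) ^ (b ^ L) := by
    rw [← pow_mul]
  rw [hSS]
  have hNpos : 0 < b ^ L := by omega
  generalize (∑ F : Maps (e + 1) b L,
      (Finset.univ.filter fun q : Fin (b ^ L) × Fin (b ^ L) => Good F q.1 q.2).card) = X at hsum ⊢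
  generalize ((b ^ (2 * L + 1) * (b - 1)) ^ (e + 1) *
      (b ^ ((L + 1) * (e + 1)) - b ^ ((L + 1) * (e + 1) - L)) ^ (b ^ L - 2)) = R at hsum hle
  generalize b ^ ((L + 1) * (e + 1)) = S at hle ⊢
  generalize b ^ L = N at *
  refine Nat.le_of_mul_le_mul_left ?_ hNpos
  calc N * (S ^ N * N * L ^ e) ≤ N * (6 * (N - 1) * R * ((e + 1) ^ e * h ^ e)) := by
        gcongr
    _ = 6 * (e + 1) ^ e * (N * (N - 1) * (h ^ e * R)) := by ring
    _ ≤ 6 * (e + 1) ^ e * (2 ^ (e + 1) * N * X) := by gcongr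
    _ = N * (6 * 2 ^ (e + 1) * (e + 1) ^ e * X) := by ring

end Pool.Agent.Helper71.SN.PkEXPB
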