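import Pool.Agent.Helper89.SN.CORE
import Pool.Agent.Helper8.SN.METRIC
import Pool.Agent.Helper49.SN.QONE
import Pool.Agent.Helper6.SN.QINF
import Pool.Agent.Helper81.SN.CNT1
import Pool.Agent.Helper83.SN.CNT2
import Pool.Agent.Helper26.SN.EXPA
import Pool.Agent.Helper71.SN.EXPB
import Pool.Agent.Helper96.SN.BAD
import Pool.Agent.Helper73.SN.CONFIG
import Pool.Agent.Helper82.SN.LOW

/-!
# MP_9b2a83_an: the lower bound with parameters
-/

namespace Pool.Agent.Helper71.SN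

theorem low : G_LOW :=
  PkLOW.thm (PkMETRIC.thm PkCORE.thm) PkQONE.thm PkQINF.thm
    (PkCONFIG.thm (PkEXPB.thm (PkEXPA.thm PkCNT1.thm PkCNT2.thm)) (PkBAD.thm PkCNT2.thm))

end Pool.Agent.Helper71.SN
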