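import Pool.Agent.Helper39.Net.Parts

/-!
# MP_9b2a83_an: the lower bound `n (log n / log log n)^(d-2)`: definitions

`agr b D t t'` is the number of leading base `b` digits (out of `D`) that `t` and `t'` share.
-/

namespace Pool.Agent.Helper71.SN

/-- Number of common leading base-`b` digits of `t, t' < b ^ D`, out of `D` digits. -/
def agr (b D t t' : ℕ) : ℕ := Nat.findGreatest (fun j => t / b ^ (D - j) = t' / b ^ (D - j)) D

/-- Points of the grid. -/
abbrev Pt (d : ℕ) := Fin d → ℕ

/-- Total number of common leading digits of two points. -/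
def tot (b D : ℕ) {d : ℕ} (x y : Pt d) : ℕ := ∑ c, agr b D (x c) (y c)

/-- A configuration: `M` is a finite set of points of the grid `[0, b^(L+1))^d`, `P` a set of pairs
`x < y` of points of `M` (strictly in every coordinate) with exactly `L` common digits in total, such
that `x` and `y` are the only points of `M` in the smallest `b`-adic cell containing both; and every
position `s` of the grid shares at least `L + 1` digits with at most `K` points of `M`. -/
structure Config (d b L K : ℕ) (M : Finset (Pt d)) (P : Finset (Pt d × Pt d)) : Prop where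
  grid : ∀ x ∈ M, ∀ c, x c < b ^ (L + 1)
  mem1 : ∀ p ∈ P, p.1 ∈ M
  mem2 : ∀ p ∈ P, p.2 ∈ M
  lt : ∀ p ∈ P, ∀ c, p.1 c < p.2 c
  tot : ∀ p ∈ P, tot b (L + 1) p.1 p.2 = L
  only : ∀ p ∈ P, ∀ z ∈ M,
    (∀ c, agr b (L + 1) (p.1 c) (p.2 c) ≤ agr b (L + 1) (p.1 c) (z c)) → z = p.1 ∨ z = p.2
  few : ∀ s : Pt d, (∀ c, s c < b ^ (L + 1)) →
    (M.filter fun x => L + 1 ≤ SN.tot b (L + 1) x s).card ≤ K

/-! ### basic facts on `agr` -/

theorem agr_le (b D t t' : ℕ) : agr b D t t' ≤ D := Nat.findGreatest_le D

theorem agr_comm (b D t t' : ℕ) : agr b D t t' = agr b D t' t := by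
  unfold agr
  congr 1
  funext j
  exact propext ⟨Eq.symm, Eq.symm⟩

theorem agr_self (b D t : ℕ) : agr b D t t = D := by
  unfold agr
  exact Nat.findGreatest_eq (P := fun j => t / b ^ (D - j) = t / b ^ (D - j)) rfl

/-- Having `j` common digits. -/
theorem le_agr_iff {b D j t t' : ℕ} (hj : j ≤ D) (ht : t < b ^ D) (ht' : t' < b ^ D) :
    j ≤ agr b D t t' ↔ t / b ^ (D - j) = t' / b ^ (D - j) := by
  constructor
  · intro h
    have h0 : t / b ^ (D - agr b D t t') = t' / b ^ (D - agr b D t t') := by
      have := Nat.findGreatest_spec (P := fun j => t / b ^ (D - j) = t' / b ^ (D - j))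
        (m := 0) (n := D) (Nat.zero_le _) (by
          simp only [Nat.sub_zero]
          rw [Nat.div_eq_of_lt ht, Nat.div_eq_of_lt ht'])
      exact this
    have e : D - j = (D - agr b D t t') + (agr b D t t' - j) := by
      have := agr_le b D t t'
      omega
    rw [e, pow_add, ← Nat.div_div_eq_div_mul, ← Nat.div_div_eq_div_mul, h0]
  · intro h
    exact Nat.le_findGreatest hj h

/-- Points between `t` and `t''` share at least as many digits with `t`. -/
theorem agr_mono {b D t t' t'' : ℕ} (h1 : t ≤ t') (h2 : t' ≤ t'') (h : t'' < b ^ D) :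
    agr b D t t'' ≤ agr b D t t' := by
  have a1 : t < b ^ D := by omega
  have a2 : t' < b ^ D := by omega
  rw [le_agr_iff (agr_le _ _ _ _) a1 a2]
  have h3 := (le_agr_iff (agr_le b D t t'') a1 h).1 le_rfl
  refine le_antisymm (Nat.div_le_div_right h1) ?_
  rw [h3]
  exact Nat.div_le_div_right h2

/-- Points between `t` and `t''` share at least as many digits with `t''`. -/
theorem agr_mono' {b D t t' t'' : ℕ} (h1 : t ≤ t') (h2 : t' ≤ t'') (h : t'' < b ^ D) :
    agr b D t t'' ≤ agr b D t' t'' := by
  have a1 : t < b ^ D := by omega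
  have a2 : t' < b ^ D := by omega
  rw [le_agr_iff (agr_le _ _ _ _) a2 h]
  have h3 := (le_agr_iff (agr_le b D t t'') a1 h).1 le_rfl
  refine le_antisymm (Nat.div_le_div_right h2) ?_
  rw [← h3]
  exact Nat.div_le_div_right h1

/-- The ultrametric inequality. -/
theorem agr_min {b D t t' t'' : ℕ} (a1 : t < b ^ D) (a2 : t' < b ^ D) (a3 : t'' < b ^ D) :
    min (agr b D t t') (agr b D t' t'') ≤ agr b D t t'' := by
  have hm : min (agr b D t t') (agr b D t' t'') ≤ D := (min_le_left _ _).trans (agr_le _ _ _ _)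
  rw [le_agr_iff hm a1 a3]
  exact ((le_agr_iff hm a1 a2).1 (min_le_left _ _)).trans
    ((le_agr_iff hm a2 a3).1 (min_le_right _ _))

theorem eq_of_agr {b D t t' : ℕ} (a1 : t < b ^ D) (a2 : t' < b ^ D) (h : agr b D t t' = D) :
    t = t' := by
  have := (le_agr_iff (le_refl D) a1 a2).1 h.ge
  simpa using this

theorem tot_comm (b D : ℕ) {d : ℕ} (x y : Pt d) : tot b D x y = tot b D y x := by
  unfold tot
  exact Finset.sum_congr rfl fun c _ => agr_comm _ _ _ _

theorem tot_self (b D : ℕ) {d : ℕ} (x : Pt d) : tot b D x x = d * D := by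
  unfold tot
  simp [agr_self]

end Pool.Agent.Helper71.SN
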