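import Pool.Agent.Helper71.SN.Defs

/-!
# MP_9b2a83_an: statements of the packets
-/

namespace Pool.Agent.Helper71.SN

open Pool.Agent.Helper39.Net

/-- CORE: the charging argument in the graph. -/
def G_CORE : Prop := ∀ (d b L K : ℕ), 1 ≤ d → 1 ≤ b →
  ∀ (M : Finset (Pt d)) (P : Finset (Pt d × Pt d)), Config d b L K M P →
  ∀ (V : Type) (_ : Finite V) (G : SimpleGraph V) (f : Pt d → V)
    (W : ∀ p : Pt d × Pt d, G.Walk (f p.1) (f p.2)),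
    Set.InjOn f M →
    (∀ p ∈ P, ∀ q ∈ P, ∀ v, v ∈ (W p).support → v ∈ (W q).support → ∀ c, p.1 c ≤ q.2 c) →
    (∀ x ∈ M, ∀ q ∈ P, f x ∈ (W q).support → ∀ c, q.1 c ≤ x c ∧ x c ≤ q.2 c) →
    P.card ≤ 2 * K * G.edgeSet.ncard

/-- METRIC: from an embedding with small distortion to the charging argument. -/
def G_METRIC : Prop := ∀ (d b L K : ℕ), 1 ≤ d → 1 ≤ b →
  ∀ (M : Finset (Pt d)) (P : Finset (Pt d × Pt d)), Config d b L K M P →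
  ∀ (E : Type) (ρ : E → E → ℝ) (pt : Pt d → E) (η R c : ℝ), 0 < η → 1 ≤ c → (c - 1) * R < η / 2 →
    (∀ x ∈ M, ρ (pt x) (pt x) = 0) →
    (∀ p ∈ P, ρ (pt p.1) (pt p.2) ≤ R) →
    (∀ x ∈ M, ∀ y ∈ M, ∀ x' ∈ M, ∀ y' ∈ M, (x = y ∨ ∀ c, x c < y c) → (x' = y' ∨ ∀ c, x' c < y' c) →
      ¬ ((∀ c, x c ≤ y' c) ∧ ∀ c, x' c ≤ y c) →
      ρ (pt x) (pt y) + ρ (pt x') (pt y') + η ≤ ρ (pt x) (pt y') + ρ (pt x') (pt y)) →
    ∀ (T : Finset E), (∀ x ∈ M, pt x ∈ T) → ∀ m : ℕ, Embeds ρ T c m → P.card ≤ 2 * K * m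

/-- The points in `ℓ_1^d`. -/
def qOne {d : ℕ} (x : Pt d) : Fin d → ℝ := fun c => (x c : ℝ)

/-- The points in `ℓ_∞^(k+2)`. -/
noncomputable def qInf (k B : ℕ) (x : Pt (k + 2)) : Fin (k + 2) → ℝ := fun c =>
  if c.val = 0 then ((x 0 : ℝ) + x 1) / 2 else if c.val = 1 then ((x 0 : ℝ) - x 1) / 2
  else ((x 0 : ℝ) + x 1) / 2 - (x c : ℝ) / B

/-- QONE: the four-point property of the points in `ℓ_1`. -/
def G_QONE : Prop := ∀ (d B : ℕ) (x y x' y' : Pt d), (∀ c, x c < B) → (∀ c, y c < B) →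
  ((x = y ∨ ∀ c, x c < y c) → dOne (qOne x) (qOne y) ≤ d * B) ∧
  ((x = y ∨ ∀ c, x c < y c) → (x' = y' ∨ ∀ c, x' c < y' c) →
    ¬ ((∀ c, x c ≤ y' c) ∧ ∀ c, x' c ≤ y c) →
    dOne (qOne x) (qOne y) + dOne (qOne x') (qOne y') + 1 ≤
      dOne (qOne x) (qOne y') + dOne (qOne x') (qOne y))

/-- QINF: the four-point property of the points in `ℓ_∞`. -/
def G_QINF : Prop := ∀ (k B : ℕ) (x y x' y' : Pt (k + 2)), (∀ c, x c < B) → (∀ c, y c < B) →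
  (∀ c, x' c < B) → (∀ c, y' c < B) →
  ((x = y ∨ ∀ c, x c < y c) → dInf (qInf k B x) (qInf k B y) ≤ B) ∧
  ((x = y ∨ ∀ c, x c < y c) → (x' = y' ∨ ∀ c, x' c < y' c) →
    ¬ ((∀ c, x c ≤ y' c) ∧ ∀ c, x' c ≤ y c) →
    dInf (qInf k B x) (qInf k B y) + dInf (qInf k B x') (qInf k B y') + 1 / (B : ℝ) ≤
      dInf (qInf k B x) (qInf k B y') + dInf (qInf k B x') (qInf k B y))

/-- CNT1: the number of pairs of numbers with exactly `j` common digits. -/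
def G_CNT1 : Prop := ∀ (b L j : ℕ), 1 ≤ b → j ≤ L →
  2 * b ^ j * ((Finset.range (b ^ (L + 1)) ×ˢ Finset.range (b ^ (L + 1))).filter
    fun q => q.1 < q.2 ∧ agr b (L + 1) q.1 q.2 = j).card = b ^ (2 * L + 1) * (b - 1)

/-- CNT2: the number of numbers in a cell. -/
def G_CNT2 : Prop := ∀ (b D j t : ℕ), 1 ≤ b → j ≤ D → t < b ^ D →
  ((Finset.range (b ^ D)).filter fun t' => j ≤ agr b D t t').card = b ^ (D - j)

/-- The maps whose values are the random points. -/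
abbrev Maps (d b L : ℕ) := Fin (b ^ L) → Fin d → Fin (b ^ (L + 1))

/-- `(i, j)` is a critical pair of `F`. -/
def Good {d b L : ℕ} (F : Maps d b L) (i j : Fin (b ^ L)) : Prop :=
  (∀ c, (F i c).val < (F j c).val) ∧ ∑ c, agr b (L + 1) (F i c) (F j c) = L ∧
    ∀ k, (∀ c, agr b (L + 1) (F i c) (F j c) ≤ agr b (L + 1) (F i c) (F k c)) → k = i ∨ k = j

open Classical in
/-- EXPA: the number of maps for which a given pair of indices is critical of a given shape. -/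
def G_EXPA : Prop := ∀ (d b L : ℕ), 1 ≤ b → ∀ (σ : Fin d → ℕ), ∑ c, σ c = L →
  ∀ (i j : Fin (b ^ L)), i ≠ j →
    2 ^ d * b ^ L * (Finset.univ.filter fun F : Maps d b L =>
      (∀ c, (F i c).val < (F j c).val ∧ agr b (L + 1) (F i c) (F j c) = σ c) ∧
        ∀ k, k ≠ i → k ≠ j → ¬ ∀ c, σ c ≤ agr b (L + 1) (F i c) (F k c)).card =
    (b ^ (2 * L + 1) * (b - 1)) ^ d * (b ^ ((L + 1) * d) - b ^ ((L + 1) * d - L)) ^ (b ^ L - 2)

open Classical in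
/-- EXPB: the mean number of critical pairs. -/
def G_EXPB : Prop := ∀ (d b L : ℕ), 2 ≤ d → 1 ≤ L → (L + d) ^ (2 * d) ≤ b →
  b ^ ((L + 1) * d * b ^ L) * b ^ L * L ^ (d - 1) ≤ 6 * 2 ^ d * d ^ (d - 1) *
    ∑ F : Maps d b L, (Finset.univ.filter fun q : Fin (b ^ L) × Fin (b ^ L) =>
      Good F q.1 q.2).card

open Classical in
/-- BAD: few maps have a position sharing `L + 1` digits with many points. -/
def G_BAD : Prop := ∀ (d b L : ℕ), 2 ≤ d → 1 ≤ L → (L + d) ^ (2 * d) ≤ b →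
  (Finset.univ.filter fun F : Maps d b L => ∃ s : Fin d → Fin (b ^ (L + 1)),
    6 * d * L + 1 ≤ (Finset.univ.filter fun k : Fin (b ^ L) =>
      L + 1 ≤ ∑ c, agr b (L + 1) (F k c) (s c)).card).card * b ^ (2 * L) ≤
    b ^ ((L + 1) * d * b ^ L)

/-- CONFIG: good configurations exist. -/
def G_CONFIG : Prop := ∀ (d b L : ℕ), 2 ≤ d → 1 ≤ L → (L + d) ^ (2 * d) ≤ b →
  ∃ (M : Finset (Pt d)) (P : Finset (Pt d × Pt d)), M.card ≤ b ^ L ∧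
    Config d b L (6 * d * L) M P ∧
    b ^ L * L ^ (d - 1) ≤ 24 * 2 ^ d * d ^ (d - 1) * P.card

/-- LOW: the lower bound with parameters. -/
def G_LOW : Prop := ∀ (k b L : ℕ), 1 ≤ L → (L + (k + 2)) ^ (2 * (k + 2)) ≤ b →
  ∀ n : ℕ, b ^ L ≤ n → ∀ c : ℝ, 1 ≤ c → (c - 1) * (8 * (k + 2) * (b : ℝ) ^ (2 * (L + 1))) < 1 →
    (b : ℝ) ^ L * (L : ℝ) ^ k ≤
        288 * 2 ^ (k + 2) * ((k : ℝ) + 2) ^ (k + 2) * EN (dOne (d := k + 2)) n c ∧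
      (b : ℝ) ^ L * (L : ℝ) ^ k ≤
        288 * 2 ^ (k + 2) * ((k : ℝ) + 2) ^ (k + 2) * EN (dInf (d := k + 2)) n c

/-- FQ2: the final bound for distortion one. -/
def G_FQ2 : Prop := ∃ A : ℝ, 1 ≤ A ∧ ∀ (k n : ℕ), 2 ≤ n →
  (n : ℝ) * (Real.log n / (A * ((k : ℝ) + 2) ^ 2 * Real.log (k + 2 + Real.log n))) ^ k ≤
      A ^ (k + 2) * EN (dOne (d := k + 2)) n 1 ∧
    (n : ℝ) * (Real.log n / (A * ((k : ℝ) + 2) ^ 2 * Real.log (k + 2 + Real.log n))) ^ k ≤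
      A ^ (k + 2) * EN (dInf (d := k + 2)) n 1

/-- FQ1: the final bound for distortion `c > 1`. -/
def G_FQ1 : Prop := ∃ A : ℝ, 1 ≤ A ∧ ∀ (k : ℕ) (c : ℝ), 1 < c →
  (G c / (A * ((k : ℝ) + 2) ^ 2 * Real.log (k + 2 + G c))) ^ k ≤
      A ^ (k + 2) * CN (dOne (d := k + 2)) c ∧
    (G c / (A * ((k : ℝ) + 2) ^ 2 * Real.log (k + 2 + G c))) ^ k ≤
      A ^ (k + 2) * CN (dInf (d := k + 2)) c

end Pool.Agent.Helper71.SN
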